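import Pool.Agent.S04899

set_option autoImplicit false

namespace Pool.Agent.Lib.MP_675d17_an.Old.FiskComplex

open Polynomial

lemma eval_sum (n : ℕ) (c : ℕ → ℝ) (z : ℂ) :
    ((∑ k ∈ Finset.range (n + 1), C (c k) * X ^ k : ℝ[X]).map (algebraMap ℝ ℂ)).eval z =
      ∑ k ∈ Finset.range (n + 1), (c k : ℂ) * z ^ k := by
  rw [Polynomial.map_sum, eval_finsetSum]
  refine Finset.sum_congr rfl fun k _ => ?_
  simp

lemma coeff_sum (n : ℕ) (c : ℕ → ℝ) (j : ℕ) :
    (∑ k ∈ Finset.range (n + 1), C (c k) * X ^ k : ℝ[X]).coeff j = if j ≤ n then c j else 0 := by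
  rw [Polynomial.finsetSum_coeff]
  simp only [coeff_C_mul, coeff_X_pow, mul_ite, mul_one, mul_zero]
  rw [Finset.sum_ite_eq]
  simp only [Finset.mem_range, Nat.lt_succ_iff]

/-- Fisk's conjecture, with roots taken in the complex numbers. -/
theorem result (n : ℕ) (a : ℤ → ℝ) (hpos : ∀ k : ℤ, 0 ≤ k → k ≤ n → 0 < a k)
    (hzero : ∀ k : ℤ, k < 0 ∨ (n : ℤ) < k → a k = 0)
    (hroot : ∀ z : ℂ, ∑ k ∈ Finset.range (n + 1), (a k : ℂ) * z ^ k = 0 → z.im = 0 ∧ z.re < 0)
    (r : ℕ) (hr : 1 ≤ r) (z : ℂ)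
    (hz : ∑ k ∈ Finset.range (n + 1),
      (((Matrix.of fun i j : Fin r => a ((k : ℤ) + (i : ℕ) - (j : ℕ))).det : ℝ) : ℂ) * z ^ k
        = 0) :
    z.im = 0 ∧ z.re < 0 := by
  set p : ℝ[X] := ∑ k ∈ Finset.range (n + 1), C (a (k : ℕ)) * X ^ k with hp
  have hc : ∀ j : ℕ, p.coeff j = a j := by
    intro j
    rw [hp, coeff_sum n (fun k => a k)]
    split_ifs with h
    · rfl
    · exact (hzero j (Or.inr (by omega))).symm
  have hdeg : p.natDegree = n := by
    apply le_antisymm
    · rw [natDegree_le_iff_coeff_eq_zero]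
      intro N hN
      rw [hc]
      exact hzero N (Or.inr (by omega))
    · apply le_natDegree_of_ne_zero
      rw [hc]
      exact (hpos n (by omega) le_rfl).ne'
  have hsp : p.Splits := by
    refine Splits.of_splits_map (algebraMap ℝ ℂ) (IsAlgClosed.splits _) fun w hw => ?_
    have h1 := isRoot_of_mem_roots hw
    rw [IsRoot, hp, eval_sum n (fun k => a k)] at h1
    exact ⟨w.re, Complex.ext rfl (by simp [(hroot w h1).1])⟩
  set T : ℕ → ℝ := fun k => (Matrix.of fun i j : Fin r => a ((k : ℤ) + (i : ℕ) - (j : ℕ))).det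
    with hT
  set q : ℝ[X] := ∑ k ∈ Finset.range (n + 1), C (T k) * X ^ k with hq
  obtain ⟨h1, h2⟩ := Pool.Agent.S04899.result p
    (fun k hk => by rw [hc]; exact hpos k (by omega) (by omega))
    (splits_iff_card_roots.1 hsp) r hr q (by
      rw [hq, hdeg]
      refine Finset.sum_congr rfl fun k _ => ?_
      congr 2
      rw [hT]
      dsimp only
      rw [← Matrix.det_transpose]
      congr 1
      ext i j
      simp only [Matrix.transpose_apply, Matrix.of_apply]
      split_ifs with h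
      · rw [hc, Int.toNat_of_nonneg h]
        congr 1
        ring
      · exact hzero _ (Or.inl (by omega)))
  have hT0 : T 0 ≠ 0 := by
    rw [hT]
    dsimp only
    rw [Matrix.det_of_isLowerTriangular]
    · refine Finset.prod_ne_zero_iff.2 fun i _ => ?_
      rw [Matrix.of_apply]
      exact (hpos _ (by omega) (by omega)).ne'
    · intro i j hij
      rw [Matrix.of_apply]
      have : (i : ℕ) < j := hij
      exact hzero _ (Or.inl (by omega))
  have hq0 : q ≠ 0 := by
    intro h
    apply hT0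
    have := coeff_sum n T 0
    rw [← hq, h, coeff_zero, if_pos (Nat.zero_le n)] at this
    exact this.symm
  have hqs : q.Splits := splits_iff_card_roots.2 h1
  have hmem : z ∈ (q.map (algebraMap ℝ ℂ)).roots := by
    rw [mem_roots (Polynomial.map_ne_zero hq0), IsRoot, hq, eval_sum]
    exact hz
  rw [hqs.roots_map, Multiset.mem_map] at hmem
  obtain ⟨x, hx, rfl⟩ := hmem
  exact ⟨rfl, h2 x hx⟩

end Pool.Agent.Lib.MP_675d17_an.Old.FiskComplex
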